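import Pool.Agent.H77.BC.Targets

/-!
# Row DEG of board bcp_modules: connected groups have degree one
-/

set_option autoImplicit false

open Set Pool.Agent.H77.BC

namespace Pool.Agent.H77.BCP

/-- a definable subset of full rank -/
structure Big {M : Type} (U : RU M) {Γ : Type} [Group Γ] [Cod M Γ] (H : Subgroup Γ)
    (X : Set Γ) : Prop where
  D : U.D X
  sub : X ⊆ (H : Set Γ)
  ne : X.Nonempty
  rk : U.R (H : Set Γ) ≤ U.R X

/-- sets of degree one -/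
def Atomic {M : Type} (U : RU M) {Γ : Type} [Group Γ] [Cod M Γ] (H : Subgroup Γ)
    (X : Set Γ) : Prop :=
  Big U H X ∧ ∀ Y Z : Set Γ, Y ⊆ X → Z ⊆ X → Big U H Y → Big U H Z → (Y ∩ Z).Nonempty

variable {M : Type} {U : RU M} {Γ : Type} [Group Γ] [Cod M Γ] {H : Subgroup Γ}

theorem Big.mono (hA : RKA U) {X Y : Set Γ} (h : Big U H X) (hY : U.D Y) (hYH : Y ⊆ (H : Set Γ))
    (hXY : X ⊆ Y) : Big U H Y :=
  ⟨hY, hYH, h.ne.mono hXY, h.rk.trans (hA.mono h.D hY h.ne hXY)⟩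

theorem Big.le (hA : RKA U) (hH : U.D (H : Set Γ)) {X : Set Γ} (h : Big U H X) :
    U.R X ≤ U.R (H : Set Γ) := hA.mono h.D hH h.ne h.sub

/-- remove a small set -/
theorem Big.diff (hA : RKA U) {W T : Set Γ} (h : Big U H W) (hT : U.D T)
    (hn : ¬ Big U H (W ∩ T)) : Big U H (W \ T) := by
  have hD : U.D (W \ T) := D_diff h.D hT
  have hI : U.D (W ∩ T) := D_inter h.D hT
  rcases (W ∩ T).eq_empty_or_nonempty with he | hne
  · have e : W \ T = W := sdiff_eq_left.2 (disjoint_iff_inter_eq_empty.2 he)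
    rw [e]
    exact h
  · have h1 : ¬ U.R (H : Set Γ) ≤ U.R (W ∩ T) := fun h' =>
      hn ⟨hI, inter_subset_left.trans h.sub, hne, h'⟩
    rcases (W \ T).eq_empty_or_nonempty with he | hne'
    · have e : W ∩ T = W := inter_eq_left.2 (sdiff_eq_empty.1 he)
      rw [e] at hn
      exact (hn h).elim
    · refine ⟨hD, sdiff_subset.trans h.sub, hne', ?_⟩
      have h2 : U.R W = max (U.R (W ∩ T)) (U.R (W \ T)) := by
        rw [← hA.union hI hD hne hne', inter_union_sdiff]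
      have h3 := h.rk
      rw [h2] at h3
      rcases le_max_iff.1 h3 with h4 | h4
      · exact (h1 h4).elim
      · exact h4

theorem Atomic.inter (hA : RKA U) {X Y Z : Set Γ} (h : Atomic U H X) (hY : Y ⊆ X) (hZ : Z ⊆ X)
    (hBY : Big U H Y) (hBZ : Big U H Z) : Big U H (Y ∩ Z) := by
  by_contra hn
  have h1 := hBY.diff hA hBZ.D hn
  obtain ⟨x, hx1, hx2⟩ := h.2 (Y \ Z) Z (sdiff_subset.trans hY) hZ h1 hBZ
  exact hx1.2 hx2

theorem exists_atomic (hA : RKA U) (hH : U.D (H : Set Γ)) {X : Set Γ} (hX : Big U H X) :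
    ∃ Y, Y ⊆ X ∧ Atomic U H Y := by
  by_contra hcon
  push Not at hcon
  have hstep : ∀ Y : {Y : Set Γ // Y ⊆ X ∧ Big U H Y}, ∃ P : Set Γ × {Y : Set Γ // Y ⊆ X ∧
      Big U H Y}, P.1 ⊆ Y.1 ∧ P.2.1 ⊆ Y.1 ∧ Big U H P.1 ∧ Disjoint P.1 P.2.1 := by
    rintro ⟨Y, hYX, hY⟩
    have h1 := hcon Y hYX
    unfold Atomic at h1
    push Not at h1
    obtain ⟨P, Q, hP, hQ, hBP, hBQ, hd⟩ := h1 hY
    exact ⟨(P, ⟨Q, hQ.trans hYX, hBQ⟩), hP, hQ, hBP, disjoint_iff_inter_eq_empty.2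
      (by simpa [not_nonempty_iff_eq_empty] using hd)⟩
  choose P hP using hstep
  let Y : ℕ → {Y : Set Γ // Y ⊆ X ∧ Big U H Y} := fun n =>
    Nat.rec ⟨X, subset_rfl, hX⟩ (fun _ Y => (P Y).2) n
  have hY : ∀ n, Y (n + 1) = (P (Y n)).2 := fun n => rfl
  have hsub1 : ∀ n, (Y (n + 1)).1 ⊆ (Y n).1 := fun n => by
    rw [hY]
    exact (hP (Y n)).2.1
  have hanti : ∀ m n, m ≤ n → (Y n).1 ⊆ (Y m).1 := by
    intro m n hmn
    induction n, hmn using Nat.le_induction with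
    | base => exact subset_rfl
    | succ n _ ih => exact (hsub1 n).trans ih
  have key : ∀ m n, m < n → Disjoint (P (Y m)).1 (P (Y n)).1 := by
    intro m n hmn
    refine (hP (Y m)).2.2.2.mono_right ?_
    refine ((hP (Y n)).1).trans ?_
    rw [← hY]
    exact hanti _ _ hmn
  have h1 := hA.split (n := U.R (H : Set Γ)) (fun n => (P (Y n)).1) hX.D (fun n =>
    ⟨(hP (Y n)).2.2.1.D, (hP (Y n)).2.2.1.ne, ((hP (Y n)).1).trans (Y n).2.1,
      (hP (Y n)).2.2.1.rk⟩) (fun i j hij => by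
      rcases lt_or_gt_of_ne hij with h | h
      · exact key i j h
      · exact (key j i h).symm)
  have h2 := hX.le hA hH
  omega

variable [DG U Γ]

theorem D_smul {X : Set Γ} (hX : U.D X) (g : Γ) : U.D ((fun x => g * x) '' X) :=
  DFn_image (DFn_gmul (DFn_const g) DFn_id) hX

theorem Big.smul (hB : RKB U) {X : Set Γ} (h : Big U H X) {g : Γ} (hg : g ∈ H) :
    Big U H ((fun x => g * x) '' X) := by
  refine ⟨D_smul h.D g, ?_, h.ne.image _, ?_⟩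
  · rintro _ ⟨x, hx, rfl⟩
    exact H.mul_mem hg (h.sub hx)
  · rw [hB.inj h.D (DFn_gmul (DFn_const g) DFn_id) h.ne (mul_right_injective g).injOn]
    exact h.rk

/-- the almost stabilizer of an atomic set -/
def Stab (hA : RKA U) (hB : RKB U) (hH : U.D (H : Set Γ)) {X : Set Γ} (hX : Atomic U H X) :
    Subgroup Γ where
  carrier := {g | g ∈ H ∧ Big U H {x | x ∈ X ∧ g * x ∈ X}}
  one_mem' := by
    refine ⟨H.one_mem, ?_⟩
    have e : {x | x ∈ X ∧ 1 * x ∈ X} = X := by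
      ext x
      simp
    rw [e]
    exact hX.1
  inv_mem' := by
    rintro g ⟨hg, h⟩
    refine ⟨H.inv_mem hg, ?_⟩
    have h1 := h.smul hB hg
    have e : (fun x => g * x) '' {x | x ∈ X ∧ g * x ∈ X} = {x | x ∈ X ∧ g⁻¹ * x ∈ X} := by
      ext y
      constructor
      · rintro ⟨x, ⟨h1, h2⟩, rfl⟩
        refine ⟨h2, ?_⟩
        simpa using h1
      · rintro ⟨h1, h2⟩
        exact ⟨g⁻¹ * y, ⟨h2, by simpa using h1⟩, by simp⟩
    rwa [e] at h1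
  mul_mem' := by
    rintro g h ⟨hg, hSg⟩ ⟨hh, hSh⟩
    refine ⟨H.mul_mem hg hh, ?_⟩
    have h1 := hSh.smul hB hh
    have h2 : (fun x => h * x) '' {x | x ∈ X ∧ h * x ∈ X} ⊆ X := by
      rintro _ ⟨x, hx, rfl⟩
      exact hx.2
    have h3 := (hX.inter hA h2 (fun x hx => hx.1) h1 hSg).smul hB (H.inv_mem hh)
    refine h3.mono hA ?_ ?_ ?_
    · exact D_and hX.1.D (DFn_preim (DFn_gmul (DFn_const (g * h)) DFn_id) hX.1.D)
    · exact fun x hx => hX.1.sub hx.1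
    · rintro _ ⟨_, ⟨⟨x, hx, rfl⟩, h4⟩, rfl⟩
      refine ⟨?_, ?_⟩
      · simpa using hx.1
      · have h5 := h4.2
        simpa [mul_assoc] using h5

theorem mem_Stab {hA : RKA U} {hB : RKB U} {hH : U.D (H : Set Γ)} {X : Set Γ}
    {hX : Atomic U H X} {g : Γ} :
    g ∈ Stab hA hB hH hX ↔ g ∈ H ∧ Big U H {x | x ∈ X ∧ g * x ∈ X} := Iff.rfl

theorem Stab_def (hA : RKA U) (hB : RKB U) (hH : U.D (H : Set Γ)) {X : Set Γ}
    (hX : Atomic U H X) : U.D ((Stab hA hB hH hX : Subgroup Γ) : Set Γ) := by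
  have hZ : U.D {p : Γ × Γ | p.2 ∈ X ∧ p.1 * p.2 ∈ X} :=
    D_and (DFn_preim DFn_snd hX.1.D) (DFn_preim (DFn_gmul DFn_fst DFn_snd) hX.1.D)
  have h := D_inter hH (hB.sec_def (U.R (H : Set Γ)) hZ)
  have e : ((Stab hA hB hH hX : Subgroup Γ) : Set Γ) = (H : Set Γ) ∩ {g : Γ |
      (∃ x, (g, x) ∈ {p : Γ × Γ | p.2 ∈ X ∧ p.1 * p.2 ∈ X}) ∧
        U.R {x | (g, x) ∈ {p : Γ × Γ | p.2 ∈ X ∧ p.1 * p.2 ∈ X}} = U.R (H : Set Γ)} := by
    ext g
    constructor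
    · rintro ⟨hg, h1⟩
      exact ⟨hg, h1.ne, le_antisymm (h1.le hA hH) h1.rk⟩
    · rintro ⟨hg, h1, h2⟩
      exact ⟨hg, D_and hX.1.D (DFn_preim (DFn_gmul (DFn_const g) DFn_id) hX.1.D),
        fun x hx => hX.1.sub hx.1, h1, h2.ge⟩
  rw [e]
  exact h

theorem Stab_top (hA : RKA U) (hB : RKB U) (hG : GRA U) (hC : Conn U H) {X : Set Γ}
    (hX : Atomic U H X) {g : Γ} (hg : g ∈ H) : Big U H {x | x ∈ X ∧ g * x ∈ X} := by
  have hH := hC.1
  have hSle : Stab hA hB hH hX ≤ H := fun x hx => hx.1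
  have hSD := Stab_def hA hB hH hX
  have hidx : (Stab hA hB hH hX).relIndex H ≠ 0 := by
    intro h0
    have hinf : Infinite (H ⧸ (Stab hA hB hH hX).subgroupOf H) := by
      by_contra hfin
      rw [not_infinite_iff_finite] at hfin
      exact (Subgroup.finiteIndex_iff_finite_quotient.2 hfin).index_ne_zero h0
    let e := Infinite.natEmbedding (H ⧸ (Stab hA hB hH hX).subgroupOf H)
    choose y hy using fun n => QuotientGroup.mk_surjective (e n)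
    have hsep : ∀ i j, i ≠ j → ((y j : Γ))⁻¹ * (y i : Γ) ∉ Stab hA hB hH hX := by
      intro i j hij hmem
      refine hij (e.injective ?_)
      rw [← hy i, ← hy j]
      refine (QuotientGroup.eq.2 ?_).symm
      rw [Subgroup.mem_subgroupOf]
      exact hmem
    let T : ℕ → Set Γ := fun i => (fun x => (y i : Γ) * x) '' X
    have hTD : ∀ i, U.D (T i) := fun i => D_smul hX.1.D _
    have hTB : ∀ i, Big U H (T i) := fun i => hX.1.smul hB (y i).2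
    have hTI : ∀ i j, i ≠ j → ¬ Big U H (T i ∩ T j) := by
      intro i j hij hb
      refine hsep i j hij ⟨H.mul_mem (H.inv_mem (y j).2) (y i).2, ?_⟩
      have h1 := hb.smul hB (H.inv_mem (y i).2)
      have e1 : (fun x => (y i : Γ)⁻¹ * x) '' (T i ∩ T j) =
          {x | x ∈ X ∧ (y j : Γ)⁻¹ * (y i : Γ) * x ∈ X} := by
        ext x
        constructor
        · rintro ⟨_, ⟨⟨a, ha, rfl⟩, ⟨b, hb, h2⟩⟩, rfl⟩
          refine ⟨by simpa using ha, ?_⟩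
          have h3 : (y j : Γ) * b = (y i : Γ) * a := h2
          have h4 : (y j : Γ)⁻¹ * (y i : Γ) * ((y i : Γ)⁻¹ * ((y i : Γ) * a)) = b := by
            rw [← h3]
            group
          change (y j : Γ)⁻¹ * (y i : Γ) * ((y i : Γ)⁻¹ * ((y i : Γ) * a)) ∈ X
          rw [h4]
          exact hb
        · rintro ⟨h2, h3⟩
          refine ⟨(y i : Γ) * x, ⟨⟨x, h2, rfl⟩, ⟨_, h3, ?_⟩⟩, by simp⟩
          change (y j : Γ) * ((y j : Γ)⁻¹ * (y i : Γ) * x) = (y i : Γ) * x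
          group
      rwa [e1] at h1
    have hfin : ∀ (i : ℕ) (J : Finset ℕ), i ∉ J → Big U H (T i \ ⋃ j ∈ J, T j) := by
      classical
      intro i J
      induction J using Finset.induction_on with
      | empty =>
        intro _
        simpa using hTB i
      | insert j J hj ih =>
        intro hi
        rw [Finset.mem_insert, not_or] at hi
        have h1 := ih hi.2
        have e1 : T i \ ⋃ l ∈ insert j J, T l = (T i \ ⋃ l ∈ J, T l) \ T j := by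
          rw [Finset.set_biUnion_insert, union_comm, sdiff_sdiff]
        rw [e1]
        refine h1.diff hA (hTD j) fun hb => hTI i j hi.1 ?_
        exact hb.mono hA (D_inter (hTD i) (hTD j)) (inter_subset_left.trans (hTB i).sub)
          (inter_subset_inter_left _ sdiff_subset)
    have hlast := hA.split (n := U.R (H : Set Γ)) (fun i => T i \ ⋃ j ∈ Finset.range i, T j) hH
      (fun i => by
        have h1 := hfin i (Finset.range i) (by simp)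
        exact ⟨h1.D, h1.ne, h1.sub, h1.rk⟩) (fun i j hij => by
        have key : ∀ a b : ℕ, a < b → Disjoint (T a \ ⋃ l ∈ Finset.range a, T l)
            (T b \ ⋃ l ∈ Finset.range b, T l) := by
          intro a b hab
          rw [disjoint_left]
          intro x h1 h2
          refine h2.2 ?_
          rw [mem_iUnion₂]
          exact ⟨a, Finset.mem_range.2 hab, h1.1⟩
        rcases lt_or_gt_of_ne hij with h | h
        · exact key i j h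
        · exact (key j i h).symm)
    omega
  have h1 := (hG H (Stab hA hB hH hX) hH hSD hSle).1 hidx
  have h2 := hC.2 _ hSle hSD h1
  have h3 : g ∈ Stab hA hB hH hX := by
    rw [h2]
    exact hg
  exact h3.2

omit [DG U Γ] in
theorem pf_DEG {M : Type} (U : RU M) (hA : RKA U) (hB : RKB U) (hG : GRA U) : DEG U := by
  intro Γ _ _ _ H hC X Y hXD hYD hXH hYH hXn hYn hXr hYr
  have hH := hC.1
  obtain ⟨X0, hX0, hXa⟩ := exists_atomic hA hH (⟨hXD, hXH, hXn, hXr⟩ : Big U H X)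
  obtain ⟨Y0, hY0, hYa⟩ := exists_atomic hA hH (⟨hYD, hYH, hYn, hYr⟩ : Big U H Y)
  suffices hs : ∃ g ∈ H, Big U H {x | x ∈ X0 ∧ g * x ∈ Y0} by
    obtain ⟨g, hg, hb⟩ := hs
    have h1 := Stab_top hA hB hG hC hXa hg
    obtain ⟨x, h2, h3⟩ := hXa.2 _ _ (fun x hx => hx.1) (fun x hx => hx.1) hb h1
    exact ⟨g * x, hX0 h3.2, hY0 h2.2⟩
  by_contra hcon
  push Not at hcon
  have hZD : U.D {p : Γ × Γ | p.1 ∈ H ∧ p.2 ∈ X0 ∧ p.1 * p.2 ∈ Y0} :=
    D_and (DFn_preim DFn_fst hH) (D_and (DFn_preim DFn_snd hXa.1.D)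
      (DFn_preim (DFn_gmul DFn_fst DFn_snd) hYa.1.D))
  have hZD' : U.D {p : Γ × Γ | p.2 ∈ H ∧ p.1 ∈ X0 ∧ p.2 * p.1 ∈ Y0} := D_swap hZD
  obtain ⟨x0, hx0⟩ := hXa.1.ne
  obtain ⟨y0, hy0⟩ := hYa.1.ne
  have hmemZ : ∀ x ∈ X0, ∀ y ∈ Y0, y * x⁻¹ ∈ H ∧ x ∈ X0 ∧ y * x⁻¹ * x ∈ Y0 := by
    intro x hx y hy
    refine ⟨H.mul_mem (hYa.1.sub hy) (H.inv_mem (hXa.1.sub hx)), hx, ?_⟩
    simpa using hy
  -- rank of Z from the sections over x
  have hsec : U.R {p : Γ × Γ | p.2 ∈ H ∧ p.1 ∈ X0 ∧ p.2 * p.1 ∈ Y0} =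
      U.R {x | ∃ g, (x, g) ∈ {p : Γ × Γ | p.2 ∈ H ∧ p.1 ∈ X0 ∧ p.2 * p.1 ∈ Y0}} +
        U.R (H : Set Γ) := by
    refine hB.sec_eq hZD' ⟨(x0, y0 * x0⁻¹), hmemZ x0 hx0 y0 hy0⟩ ?_
    rintro x ⟨g, hg⟩
    have e : {g | (x, g) ∈ {p : Γ × Γ | p.2 ∈ H ∧ p.1 ∈ X0 ∧ p.2 * p.1 ∈ Y0}} =
        (fun y => y * x⁻¹) '' Y0 := by
      ext g
      constructor
      · rintro ⟨h1, h2, h3⟩
        exact ⟨g * x, h3, by simp⟩
      · rintro ⟨y, hy, rfl⟩
        exact hmemZ x hg.2.1 y hy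
    rw [e, hB.inj hYa.1.D (DFn_gmul DFn_id (DFn_const _)) hYa.1.ne
      (mul_left_injective x⁻¹).injOn]
    exact le_antisymm (hYa.1.le hA hH) hYa.1.rk
  have hX0r : U.R {x | ∃ g, (x, g) ∈ {p : Γ × Γ | p.2 ∈ H ∧ p.1 ∈ X0 ∧ p.2 * p.1 ∈ Y0}} =
      U.R (H : Set Γ) := by
    have e : {x | ∃ g, (x, g) ∈ {p : Γ × Γ | p.2 ∈ H ∧ p.1 ∈ X0 ∧ p.2 * p.1 ∈ Y0}} = X0 := by
      ext x
      constructor
      · rintro ⟨g, hg⟩
        exact hg.2.1
      · intro hx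
        exact ⟨_, hmemZ x hx y0 hy0⟩
    rw [e]
    exact le_antisymm (hXa.1.le hA hH) hXa.1.rk
  have hswap : U.R {p : Γ × Γ | p.1 ∈ H ∧ p.2 ∈ X0 ∧ p.1 * p.2 ∈ Y0} =
      U.R {p : Γ × Γ | p.2 ∈ H ∧ p.1 ∈ X0 ∧ p.2 * p.1 ∈ Y0} := by
    rw [← hB.inj hZD' DFn_swap ⟨(x0, y0 * x0⁻¹), hmemZ x0 hx0 y0 hy0⟩
      (fun a _ b _ h => Prod.ext (Prod.ext_iff.1 h).2 (Prod.ext_iff.1 h).1)]
    congr 1
    ext p
    constructor
    · intro hp
      exact ⟨(p.2, p.1), hp, rfl⟩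
    · rintro ⟨q, hq, rfl⟩
      exact hq
  -- sections over g are small
  have hsm : ∀ g, (∃ x, (g, x) ∈ {p : Γ × Γ | p.1 ∈ H ∧ p.2 ∈ X0 ∧ p.1 * p.2 ∈ Y0}) →
      U.R {x | (g, x) ∈ {p : Γ × Γ | p.1 ∈ H ∧ p.2 ∈ X0 ∧ p.1 * p.2 ∈ Y0}} <
        U.R (H : Set Γ) := by
    rintro g ⟨x, hx⟩
    by_contra hlt
    rw [not_lt] at hlt
    refine hcon g hx.1 ⟨?_, fun x hx => hXa.1.sub hx.1, ⟨x, hx.2⟩, ?_⟩
    · exact D_and hXa.1.D (DFn_preim (DFn_gmul (DFn_const g) DFn_id) hYa.1.D)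
    · have e : {x | (g, x) ∈ {p : Γ × Γ | p.1 ∈ H ∧ p.2 ∈ X0 ∧ p.1 * p.2 ∈ Y0}} =
          {x | x ∈ X0 ∧ g * x ∈ Y0} := by
        ext y
        exact ⟨fun h => h.2, fun h => ⟨hx.1, h⟩⟩
      rwa [e] at hlt
  have hpos : 0 < U.R (H : Set Γ) :=
    lt_of_le_of_lt (Nat.zero_le _) (hsm _ ⟨x0, hmemZ x0 hx0 y0 hy0⟩)
  have hle := hB.sec_le (n := U.R (H : Set Γ) - 1) hZD
    ⟨(y0 * x0⁻¹, x0), hmemZ x0 hx0 y0 hy0⟩ (fun g hg => by
      have := hsm g hg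
      omega)
  have hproj : U.R {g | ∃ x, (g, x) ∈ {p : Γ × Γ | p.1 ∈ H ∧ p.2 ∈ X0 ∧ p.1 * p.2 ∈ Y0}} ≤
      U.R (H : Set Γ) := by
    refine hA.mono (D_ex hZD) hH ⟨_, _, hmemZ x0 hx0 y0 hy0⟩ ?_
    rintro g ⟨x, hx⟩
    exact hx.1
  rw [hswap, hsec, hX0r] at hle
  omega

end Pool.Agent.H77.BCP
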