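import Pool.Agent.H77.BC.Targets

/-!
# Row FNL of board bcp_modules: the theorem
-/

set_option autoImplicit false

open Set Matrix Pool.Agent.H77.BC

namespace Pool.Agent.H77.BCP

theorem pf_FNL (hM : ∀ {M : Type} (U : RU M), MK U) (hE : ∀ {M : Type} (U : RU M), EK U)
    (hL : ∀ {M : Type} (U : RU M), RGL U) (hK : ∀ {M : Type} (U : RU M), RKS U)
    (hX : TRX) (hR : RST) (hZA : HZA)
    (hZR : ∀ {M : Type} (U : RU M), HZR U) (hA : FIA) (hB : FIB) (hG : GTR) : FNL := by
  intro G S _ _ U hP hT hF K _ _ m hm he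
  obtain ⟨e⟩ := he
  obtain ⟨l, rfl⟩ : ∃ l, m = l + 2 := ⟨m - 2, by omega⟩
  -- the map from SL
  let π : SpecialLinearGroup (Fin (l + 2)) K →* G :=
    e.symm.toMonoidHom.comp (QuotientGroup.mk' _)
  have hπs : Function.Surjective π :=
    e.symm.surjective.comp (QuotientGroup.mk'_surjective _)
  have hπk : π.ker = Subgroup.center _ := by
    ext A
    rw [MonoidHom.mem_ker]
    change e.symm (QuotientGroup.mk' _ A) = 1 ↔ _
    rw [EmbeddingLike.map_eq_one_iff]
    exact QuotientGroup.eq_one_iff A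
  obtain ⟨c, hc, hπd⟩ := hX U hP l π hπs hπk
  set f := U.R (univ : Set K) with hf
  set n := U.R (univ : Set S) with hn
  have hf1 : 1 ≤ f := (hK U (K := K)).1
  have hGL : U.R (univ : Set (GL (Fin (l + 2)) K)) = (l + 2) * (l + 2) * f := hL U (l + 2)
  -- rank of SL
  have hSL : U.R (univ : Set (SpecialLinearGroup (Fin (l + 2)) K)) + f =
      (l + 2) * (l + 2) * f := by
    have h1 := (hZR U (K := K) (k := l + 2) (by omega) ⊤ Ful.full).2
    rw [(hZA (K := K) (k := l + 2) (by omega)).1] at h1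
    have h2 : U.R (((⊤ : Subgroup (GL (Fin (l + 2)) K)) : Set (GL (Fin (l + 2)) K))) =
      U.R (univ : Set (GL (Fin (l + 2)) K)) := rfl
    have h3 : U.R (((⊤ : Subgroup (SpecialLinearGroup (Fin (l + 2)) K)) :
      Set (SpecialLinearGroup (Fin (l + 2)) K))) =
      U.R (univ : Set (SpecialLinearGroup (Fin (l + 2)) K)) := rfl
    rw [h2, h3, hGL] at h1
    exact h1.symm
  -- the stabilizer of a point
  have hst : ∀ s : S, U.D (hz ((MulAction.stabilizer G s).comap π) : Set (GL (Fin (l + 2)) K)) ∧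
      U.R (hz ((MulAction.stabilizer G s).comap π) : Set (GL (Fin (l + 2)) K)) + n =
        (l + 2) * (l + 2) * f ∧ U.R (univ : Set G) + f = (l + 2) * (l + 2) * f := by
    intro s
    obtain ⟨h1, h2, h3⟩ := hR U hP hT l π hπs hπk hπd s
    obtain ⟨h4, h5⟩ := hZR U (K := K) (k := l + 2) (by omega) _ h1
    refine ⟨h4, ?_, ?_⟩
    · rw [h5, ← hSL, ← h2]
      ring
    · rw [← h3, hSL]
  -- G is not trivial, so no stabilizer is everything
  have hsx : π (sx (m := l) (1 : K)) ≠ 1 := by
    intro h3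
    have h4 : sx (m := l) (1 : K) ∈ π.ker := by
      rw [MonoidHom.mem_ker]
      exact h3
    rw [hπk, Matrix.SpecialLinearGroup.mem_center_iff] at h4
    obtain ⟨r, -, hr⟩ := h4
    have h5 := congrFun (congrFun hr 0) 1
    have h6 : ((sx (m := l) (1 : K)).val : Matrix _ _ K) 0 1 = 1 := by
      simp [sx, transvection]
    rw [h6] at h5
    simp at h5
  have hSne : Nonempty S := by
    by_contra hemp
    rw [not_nonempty_iff] at hemp
    exact hsx (hF.eq_of_smul_eq_smul fun t => isEmptyElim t)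
  have hne : ∀ s : S, (MulAction.stabilizer G s).comap π ≠ ⊤ := by
    intro s hs
    have h1 : ∀ g : G, g • s = s := by
      intro g
      obtain ⟨A, rfl⟩ := hπs g
      have h2 : A ∈ (MulAction.stabilizer G s).comap π := by
        rw [hs]
        trivial
      exact h2
    have h2 : ∀ t : S, t = s := by
      intro t
      obtain ⟨g, hg⟩ := hT.exists_smul_eq s t
      rw [← hg]
      exact h1 g
    refine hsx (hF.eq_of_smul_eq_smul fun t => ?_)
    rw [h2 (_ • t), h2 ((1 : G) • t)]
  obtain ⟨s⟩ := hSne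
  obtain ⟨h1, h2, h3⟩ := hst s
  have hmain : (l + 1) * f ≤ n := by
    by_contra hlt
    push Not at hlt
    have h4 := hM U (K := K) (l + 1) (by omega) (hz ((MulAction.stabilizer G s).comap π)) h1 (by
      have : U.R (hz ((MulAction.stabilizer G s).comap π) : Set (GL (Fin (l + 2)) K)) + n <
        U.R (hz ((MulAction.stabilizer G s).comap π) : Set (GL (Fin (l + 2)) K)) +
          (l + 1) * f := by omega
      rw [h2] at this
      exact this)
    exact hne s (((hZA (K := K) (k := l + 2) (by omega)).2 _).1 h4)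
  have hgm : U.R (univ : Set G) = (l + 3) * ((l + 1) * f) := by
    have : (l + 2) * (l + 2) * f = (l + 3) * ((l + 1) * f) + f := by ring
    omega
  refine ⟨?_, ?_⟩
  · rw [hgm]
    exact Nat.mul_le_mul_left _ hmain
  intro hn1 hcase
  have hrank : n * (n + 2) ≤ U.R (univ : Set G) := by
    rcases hcase with h | h
    · exact h
    · have h5 := hG U hP (n + 2) h
      rw [mul_comm] at h5
      exact h5
  have hnl : n ≤ l + 1 := by
    have h5 : n * (n + 2) ≤ n * (l + 3) := by
      refine hrank.trans ?_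
      rw [hgm, mul_comm]
      exact Nat.mul_le_mul_right _ hmain
    have h6 := Nat.le_of_mul_le_mul_left h5 (by omega)
    omega
  have hf2 : f = 1 := by
    have h5 : (l + 1) * f ≤ (l + 1) * 1 := by omega
    have h6 := Nat.le_of_mul_le_mul_left h5 (by omega)
    omega
  have hnl' : n = l + 1 := by
    rw [hf2] at hmain
    omega
  refine ⟨by omega, ?_⟩
  have hcen : Subgroup.center _ ≤ (MulAction.stabilizer G s).comap π := by
    rw [← hπk]
    intro A hA'
    rw [MonoidHom.mem_ker] at hA'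
    change π A • s = s
    rw [hA', one_smul]
  have hmem := ((hZA (K := K) (k := l + 2) (by omega)).2 _).2 hcen
  have hEE := hE U (K := K) hf2 (l + 1) (by omega) (hz ((MulAction.stabilizer G s).comap π)) h1 (by
    rw [hf2, hnl', mul_one] at h2
    exact h2.ge)
  rw [hnl']
  rcases hEE with h | ⟨u, hu, h⟩ | ⟨χ, hχ, h⟩
  · exact (hne s (((hZA (K := K) (k := l + 2) (by omega)).2 _).1 h)).elim
  · refine hA (l + 1) (by omega) hT π hπs hπk s u hu fun A => ?_
    refine (hmem A).trans ?_
    rw [h]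
    constructor
    · rintro ⟨g, ⟨a, ha⟩, hg⟩
      rw [hg] at ha
      exact ⟨a, ha⟩
    · rintro ⟨a, ha⟩
      exact ⟨Matrix.SpecialLinearGroup.toGL A, ⟨a, ha⟩, rfl⟩
  · refine hB (l + 1) (by omega) hT π hπs hπk s χ hχ fun A => ?_
    refine (hmem A).trans ?_
    rw [h]
    constructor
    · rintro ⟨g, ⟨a, ha⟩, hg⟩
      rw [hg] at ha
      exact ⟨a, ha⟩
    · rintro ⟨a, ha⟩
      exact ⟨Matrix.SpecialLinearGroup.toGL A, ⟨a, ha⟩, rfl⟩

end Pool.Agent.H77.BCP
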