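import Pool.Agent.H77.BC.Targets

/-!
# Row REC of board bcp_modules: the recursion
-/

set_option autoImplicit false

open Set Matrix Pool.Agent.H77.BC

namespace Pool.Agent.H77.BCP

variable {M : Type} {U : RU M} {K : Type} [Field K] [Cod M K] [DF U K]

theorem DFn_blm {k : ℕ} {α : Type} [Cod M α] [Ful U α] {a : α → K} {φ : α → Fin k → K}
    {B : α → Matrix (Fin k) (Fin k) K} (ha : DFn U a) (hφ : DFn U φ) (hB : DFn U B) :
    DFn U (fun x => blm (a x) (φ x) (B x)) := by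
  refine DFn_mat fun i j => ?_
  refine Fin.cases ?_ (fun i => ?_) i <;> refine Fin.cases ?_ (fun j => ?_) j
  · simpa using ha
  · simpa using DFn_comp (DFn_apply j) hφ
  · simpa using DFn_const (U := U) (α := α) (0 : K)
  · simpa using DFn_comp (DFn_entry i j) hB

theorem rho_def {k : ℕ} (H : Subgroup (GL (Fin (k + 1)) K))
    (hH : U.D (H : Set (GL (Fin (k + 1)) K))) : U.D (rho H : Set (GL (Fin k) K)) := by
  have h : U.D {B : GL (Fin k) K | ∃ a : K, ∃ φ : Fin k → K, ∃ g : GL (Fin (k + 1)) K,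
      g ∈ H ∧ g.val = blm a φ B.val} := by
    refine D_exists (D_exists (D_exists (D_and ?_ ?_)))
    · exact DFn_preim DFn_snd hH
    · refine D_eqf (DFn_comp DFn_val DFn_snd) (DFn_blm ?_ ?_ ?_)
      · exact DFn_comp DFn_snd (DFn_comp DFn_fst DFn_fst)
      · exact DFn_comp DFn_snd DFn_fst
      · exact DFn_comp DFn_val (DFn_comp DFn_fst (DFn_comp DFn_fst DFn_fst))
  have e : (rho H : Set (GL (Fin k) K)) = {B : GL (Fin k) K | ∃ a : K, ∃ φ : Fin k → K,
      ∃ g : GL (Fin (k + 1)) K, g ∈ H ∧ g.val = blm a φ B.val} := by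
    ext B
    constructor
    · rintro ⟨a, φ, h⟩
      exact ⟨a, φ, _, h, rfl⟩
    · rintro ⟨a, φ, g, hg, h⟩
      obtain ⟨a', B', -, hB', rfl⟩ := eq_bl g h
      have : B' = B := Units.ext hB'
      rw [this] at hg
      exact ⟨a', φ, hg⟩
  rw [e]
  exact h

theorem AA_def {k : ℕ} (H : Subgroup (GL (Fin (k + 1)) K))
    (hH : U.D (H : Set (GL (Fin (k + 1)) K))) : U.D (AA H : Set (Fin k → K)) := by
  have h : U.D {φ : Fin k → K | ∃ g : GL (Fin (k + 1)) K, g ∈ H ∧ g.val = blm 1 φ 1} := by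
    refine D_exists (D_and ?_ ?_)
    · exact DFn_preim DFn_snd hH
    · exact D_eqf (DFn_comp DFn_val DFn_snd) (DFn_blm (DFn_const 1) DFn_fst (DFn_const 1))
  have e : (AA H : Set (Fin k → K)) = {φ : Fin k → K | ∃ g : GL (Fin (k + 1)) K,
      g ∈ H ∧ g.val = blm 1 φ 1} := by
    ext φ
    constructor
    · intro h
      exact ⟨_, h, rfl⟩
    · rintro ⟨g, hg, h⟩
      have : g = bl 1 φ 1 := Units.ext h
      rw [this] at hg
      exact hg
  rw [e]
  exact h

omit [Cod M K] [DF U K] in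
theorem pf_REC {M : Type} (U : RU M) (hA : RKA U) (hB : RKB U) (hG : GRB U) (hV : RNV U)
    (hK : RKS U) (hL : RGL U) (hP : RPE U) : REC U := by
  intro K _ _ _ _ k H hH
  refine ⟨rho_def H hH, AA_def H hH, ?_⟩
  set f := U.R (univ : Set K) with hf
  obtain ⟨hPD, hPr⟩ := hP (K := K) k
  have hHP : U.D ((H ⊓ Pv e0 : Subgroup (GL (Fin (k + 1)) K)) : Set (GL (Fin (k + 1)) K)) :=
    D_inter hH hPD
  have h1 := hG ⊤ H (Pv e0) Ful.full hH hPD le_top le_top
  have h2 : U.R (((⊤ : Subgroup (GL (Fin (k + 1)) K)) : Set (GL (Fin (k + 1)) K))) =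
      (k + 1) * (k + 1) * f := hL (k + 1)
  rw [← hf] at hPr
  rw [h2, hPr] at h1
  -- rank of H ⊓ P
  have hne : (((H ⊓ Pv e0 : Subgroup (GL (Fin (k + 1)) K))) : Set (GL (Fin (k + 1)) K)).Nonempty :=
    ⟨1, Subgroup.one_mem _⟩
  have hφ : DFn U (fun g : GL (Fin (k + 1)) K => (g.val 0 0,
      (Matrix.of fun i j : Fin k => g.val i.succ j.succ : Matrix (Fin k) (Fin k) K))) := by
    refine DFn_pair (DFn_comp (DFn_entry 0 0) DFn_val) (DFn_mat fun i j => ?_)
    exact DFn_comp (DFn_entry i.succ j.succ) DFn_val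
  have hAD := AA_def H hH
  have hAne : ((AA H : AddSubgroup (Fin k → K)) : Set (Fin k → K)).Nonempty := ⟨0, (AA H).zero_mem⟩
  have h3 := hB.fib_le (n := U.R (AA H : Set (Fin k → K))) hHP hφ hne (by
    rintro _ ⟨g, ⟨hgH, hgP⟩, rfl⟩
    obtain ⟨a, φ, B, rfl⟩ := mem_Pv_e0.1 hgP
    have hm : DFn U (fun ψ : Fin k → K => (bl a φ B * bl 1 ψ 1 : GL (Fin (k + 1)) K)) := by
      refine DFn_gl ?_
      simp only [bl_mul, bl_val]
      refine DFn_blm (DFn_const _) ?_ (DFn_const _)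
      exact DFn_vadd (DFn_smul (DFn_const _) DFn_id) (DFn_const _)
    have h4 : U.R ((fun ψ : Fin k → K => (bl a φ B * bl 1 ψ 1 : GL (Fin (k + 1)) K)) ''
        (AA H : Set (Fin k → K))) = U.R (AA H : Set (Fin k → K)) := by
      refine hB.inj hAD hm hAne fun x _ y _ h => ?_
      exact (bl_inj (mul_left_cancel h)).2.1
    rw [← h4]
    refine hA.mono ?_ (DFn_image hm hAD) ⟨bl a φ B, ⟨hgH, hgP⟩, rfl⟩ ?_
    · exact D_and hHP (D_eqf hφ (DFn_const _))
    · rintro g' ⟨⟨h5, h6⟩, h7⟩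
      obtain ⟨a', φ', B', rfl⟩ := mem_Pv_e0.1 h6
      have h8 := Prod.ext_iff.1 h7
      have ha : a' = a := Units.ext (by simpa [bl_val] using h8.1)
      have hBB : B' = B := by
        refine Units.ext (Matrix.ext fun i j => ?_)
        have := congrFun (congrFun h8.2 i) j
        simpa [bl_val] using this
      subst ha
      subst hBB
      refine ⟨((a'⁻¹ : Kˣ) : K) • (φ' - φ), ?_, ?_⟩
      · change bl 1 _ 1 ∈ H
        have h9 := H.mul_mem (H.inv_mem hgH) h5
        rw [bl_inv, bl_mul, inv_mul_cancel, inv_mul_cancel] at h9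
        have e : ((a'⁻¹ : Kˣ) : K) • φ' + -(((a'⁻¹ : Kˣ) : K) • φ ᵥ* (B'⁻¹).val) ᵥ* B'.val =
            ((a'⁻¹ : Kˣ) : K) • (φ' - φ) := by
          rw [neg_vecMul, smul_vecMul, vecMul_vecMul, ← Units.val_mul, inv_mul_cancel,
            Units.val_one, vecMul_one, smul_sub, sub_eq_add_neg]
        rw [e] at h9
        exact h9
      · change bl a' φ B' * bl 1 _ 1 = bl a' φ' B'
        rw [bl_mul, mul_one, mul_one, Units.val_one, vecMul_one, smul_smul, Units.mul_inv,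
          one_smul, sub_add_cancel])
  -- the image
  have h4 : U.R ((fun g : GL (Fin (k + 1)) K => (g.val 0 0,
      (Matrix.of fun i j : Fin k => g.val i.succ j.succ : Matrix (Fin k) (Fin k) K))) ''
        (((H ⊓ Pv e0 : Subgroup (GL (Fin (k + 1)) K))) : Set (GL (Fin (k + 1)) K))) ≤
      f + U.R (rho H : Set (GL (Fin k) K)) := by
    have hrne : ((rho H : Subgroup (GL (Fin k) K)) : Set (GL (Fin k) K)).Nonempty :=
      ⟨1, (rho H).one_mem⟩
    have hrD := rho_def H hH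
    have h5 : U.R ((fun g : GL (Fin k) K => (g.val : Matrix (Fin k) (Fin k) K)) ''
        (rho H : Set (GL (Fin k) K))) = U.R (rho H : Set (GL (Fin k) K)) :=
      hB.inj hrD DFn_val hrne fun x _ y _ h => Units.ext h
    have h6 := hB.prod (X := (univ : Set K)) (Y := (fun g : GL (Fin k) K =>
      (g.val : Matrix (Fin k) (Fin k) K)) '' (rho H : Set (GL (Fin k) K))) Ful.full
      (DFn_image DFn_val hrD) ⟨0, mem_univ _⟩ (hrne.image _)
    rw [h5] at h6
    rw [← h6]
    refine hA.mono (DFn_image hφ hHP) (D_prod Ful.full (DFn_image DFn_val hrD)) (hne.image _) ?_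
    rintro _ ⟨g, ⟨hgH, hgP⟩, rfl⟩
    obtain ⟨a, φ, B, rfl⟩ := mem_Pv_e0.1 hgP
    refine ⟨mem_univ _, B, ⟨a, φ, hgH⟩, ?_⟩
    ext i j
    simp [bl_val]
  have h5 : (k + 1) * (k + 1) * f = (k * k + k + 1) * f + k * f := by ring
  have h6 : (k + 1) * f = k * f + f := by ring
  rw [h5] at h1
  rw [h6]
  omega

end Pool.Agent.H77.BCP
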