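import Pool.Agent.H77.BC.Targets

/-!
# Row RKA of board bcp_modules: first properties of the rank
-/

set_option autoImplicit false

open Set Pool.Agent.H77.BC

namespace Pool.Agent.H77.BCP

variable {M : Type} (U : RU M)

theorem rk_mono {ι : Type} [Finite ι] {A B : Set (ι → M)} (hA : U.Def ι A) (hB : U.Def ι B)
    (hne : A.Nonempty) (h : A ⊆ B) : U.rk ι A ≤ U.rk ι B := by
  rcases Nat.eq_zero_or_pos (U.rk ι A) with h0 | h0
  · omega
  · obtain ⟨n, hn⟩ : ∃ n, U.rk ι A = n + 1 := ⟨U.rk ι A - 1, by omega⟩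
    obtain ⟨C, h1, h2⟩ := (U.monotone ι A n hA hne).1 hn.ge
    rw [hn]
    exact (U.monotone ι B n hB (hne.mono h)).2
      ⟨C, fun i => ⟨(h1 i).1, (h1 i).2.1, (h1 i).2.2.1.trans h, (h1 i).2.2.2⟩, h2⟩

theorem rk_union_aux {ι : Type} [Finite ι] (n : ℕ) : ∀ A B : Set (ι → M), U.Def ι A → U.Def ι B →
    (A ∪ B).Nonempty → n ≤ U.rk ι (A ∪ B) →
    (A.Nonempty ∧ n ≤ U.rk ι A) ∨ (B.Nonempty ∧ n ≤ U.rk ι B) := by
  induction n with
  | zero =>
    intro A B _ _ hne _
    rcases hne with ⟨x, hx | hx⟩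
    · exact Or.inl ⟨⟨x, hx⟩, Nat.zero_le _⟩
    · exact Or.inr ⟨⟨x, hx⟩, Nat.zero_le _⟩
  | succ n ih =>
    intro A B hA hB hne hn
    obtain ⟨C, h1, h2⟩ := (U.monotone ι _ n (Def_union hA hB) hne).1 hn
    have h3 : ∀ i, ((C i ∩ A).Nonempty ∧ n ≤ U.rk ι (C i ∩ A)) ∨
        ((C i ∩ B).Nonempty ∧ n ≤ U.rk ι (C i ∩ B)) := by
      intro i
      have e : C i ∩ A ∪ C i ∩ B = C i := by
        rw [← inter_union_distrib_left]
        exact inter_eq_left.2 (h1 i).2.2.1
      refine ih _ _ (U.inter _ _ _ (h1 i).1 hA) (U.inter _ _ _ (h1 i).1 hB) ?_ ?_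
      · rw [e]
        exact (h1 i).2.1
      · rw [e]
        exact (h1 i).2.2.2
    have key : ∀ D : Set (ι → M), U.Def ι D →
        {i | (C i ∩ D).Nonempty ∧ n ≤ U.rk ι (C i ∩ D)}.Infinite →
        D.Nonempty ∧ n + 1 ≤ U.rk ι D := by
      intro D hD hinf
      have hs := hinf.to_subtype
      let e := Nat.Subtype.orderIsoOfNat {i | (C i ∩ D).Nonempty ∧ n ≤ U.rk ι (C i ∩ D)}
      have hDne : D.Nonempty := by
        obtain ⟨x, hx⟩ := (e 0).2.1
        exact ⟨x, hx.2⟩
      refine ⟨hDne, (U.monotone ι D n hD hDne).2 ⟨fun k => C (e k) ∩ D, fun k =>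
        ⟨U.inter _ _ _ (h1 _).1 hD, (e k).2.1, inter_subset_right, (e k).2.2⟩, ?_⟩⟩
      intro i j hij
      refine (h2 (e i) (e j) ?_).mono inter_subset_left inter_subset_left
      intro h
      exact hij (e.injective (Subtype.ext h))
    by_cases hinf : {i | (C i ∩ A).Nonempty ∧ n ≤ U.rk ι (C i ∩ A)}.Infinite
    · exact Or.inl (key A hA hinf)
    · refine Or.inr (key B hB ?_)
      rw [not_infinite] at hinf
      have h4 : {i | (C i ∩ A).Nonempty ∧ n ≤ U.rk ι (C i ∩ A)}ᶜ.Infinite := hinf.infinite_compl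
      refine h4.mono fun i hi => ?_
      exact (h3 i).resolve_left hi

theorem rk_union {ι : Type} [Finite ι] {A B : Set (ι → M)} (hA : U.Def ι A) (hB : U.Def ι B)
    (hAn : A.Nonempty) (hBn : B.Nonempty) : U.rk ι (A ∪ B) = max (U.rk ι A) (U.rk ι B) := by
  refine le_antisymm ?_ ?_
  · rcases rk_union_aux U _ A B hA hB (hAn.mono subset_union_left) le_rfl with h | h
    · exact le_max_of_le_left h.2
    · exact le_max_of_le_right h.2
  · exact max_le (rk_mono U hA (Def_union hA hB) hAn subset_union_left)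
      (rk_mono U hB (Def_union hA hB) hBn subset_union_right)

theorem pf_RKA : RKA U where
  mono := by
    intro α _ X Y hX hY hne h
    exact rk_mono U hX hY (hne.image _) (image_mono h)
  union := by
    intro α _ X Y hX hY hXn hYn
    unfold RU.R
    rw [image_union]
    exact rk_union U hX hY (hXn.image _) (hYn.image _)
  split := by
    intro α _ X n B hX hB hd
    have hne : (Cod.c (M := M) '' X).Nonempty := by
      obtain ⟨x, hx⟩ := (hB 0).2.1
      exact ⟨_, x, (hB 0).2.2.1 hx, rfl⟩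
    refine (U.monotone _ _ n hX hne).2 ⟨fun i => Cod.c (M := M) '' B i, fun i =>
      ⟨(hB i).1, (hB i).2.1.image _, image_mono (hB i).2.2.1, (hB i).2.2.2⟩, fun i j hij => ?_⟩
    exact (disjoint_image_iff c_inj).2 (hd i j hij)
  fin := by
    intro α _ X hX hne
    constructor
    · intro h0
      by_contra hinf
      have hinf' : X.Infinite := hinf
      let e := hinf'.natEmbedding
      have h1 : 0 + 1 ≤ U.rk (Cod.ι M α) (Cod.c (M := M) '' X) := by
        refine (U.monotone _ _ 0 hX (hne.image _)).2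
          ⟨fun i => Cod.c (M := M) '' {(e i : α)}, fun i => ⟨D_singleton _, ?_, ?_, Nat.zero_le _⟩,
            fun i j hij => ?_⟩
        · exact (singleton_nonempty _).image _
        · exact image_mono (singleton_subset_iff.2 (e i).2)
        · refine (disjoint_image_iff c_inj).2 (disjoint_singleton.2 fun h => hij ?_)
          exact e.injective (Subtype.ext h)
      unfold RU.R at h0
      omega
    · intro hfin
      by_contra h0
      have h1 : 0 + 1 ≤ U.rk (Cod.ι M α) (Cod.c (M := M) '' X) := by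
        unfold RU.R at h0
        omega
      obtain ⟨C, h2, h3⟩ := (U.monotone _ _ 0 hX (hne.image _)).1 h1
      choose x hx using fun i => (h2 i).2.1
      have hinj : Function.Injective x := by
        intro i j hij
        by_contra hne'
        exact disjoint_left.1 (h3 i j hne') (hx i) (hij ▸ hx j)
      have hr : range x ⊆ Cod.c (M := M) '' X := by
        rintro _ ⟨i, rfl⟩
        exact (h2 i).2.2.1 (hx i)
      exact infinite_range_of_injective hinj ((hfin.image _).subset hr)

end Pool.Agent.H77.BCP
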