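import Pool.Agent.H77.BC.Targets

/-!
# Row RKB of board bcp_modules: fibrations
-/

set_option autoImplicit false

open Set Pool.Agent.H77.BC

namespace Pool.Agent.H77.BCP

variable {M : Type} {U : RU M} {α β : Type} [Cod M α] [Cod M β]

theorem code_fun [hne : Nonempty α] (f : α → β) :
    ∃ g : (Cod.ι M α → M) → (Cod.ι M β → M), ∀ a : α, g (Cod.c a) = Cod.c (f a) := by
  classical
  obtain ⟨a0⟩ := hne
  refine ⟨fun x => if h : ∃ a : α, Cod.c a = x then Cod.c (f h.choose) else Cod.c (f a0),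
    fun a => ?_⟩
  have h : ∃ a' : α, Cod.c (M := M) a' = Cod.c a := ⟨a, rfl⟩
  change (if h : ∃ a' : α, Cod.c (M := M) a' = Cod.c a then Cod.c (f h.choose)
    else Cod.c (f a0)) = _
  rw [dif_pos h]
  have h1 : h.choose = a := Cod.inj (M := M) h.choose_spec
  rw [h1]

variable {f : α → β} {g : (Cod.ι M α → M) → (Cod.ι M β → M)} {X : Set α}

theorem fib_code (hg : ∀ a : α, g (Cod.c a) = Cod.c (f a)) (b : β) :
    {x | x ∈ Cod.c (M := M) '' X ∧ g x = Cod.c b} =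
      Cod.c (M := M) '' {a | a ∈ X ∧ f a = b} := by
  ext x
  constructor
  · rintro ⟨⟨a, ha, rfl⟩, h⟩
    rw [hg] at h
    exact ⟨a, ⟨ha, Cod.inj (M := M) h⟩, rfl⟩
  · rintro ⟨a, ⟨ha, h⟩, rfl⟩
    refine ⟨⟨a, ha, rfl⟩, ?_⟩
    rw [hg, h]

theorem graph_code [Ful U α] [Ful U β] (hg : ∀ a : α, g (Cod.c a) = Cod.c (f a)) (hX : U.D X)
    (hf : DFn U f) :
    U.Def (Cod.ι M α ⊕ Cod.ι M β) {z | z ∘ Sum.inl ∈ Cod.c (M := M) '' X ∧
      z ∘ Sum.inr = g (z ∘ Sum.inl)} := by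
  have h := D_inter hf (D_prod hX (Ful.full (U := U) (α := β)))
  have e : {z | z ∘ Sum.inl ∈ Cod.c (M := M) '' X ∧ z ∘ Sum.inr = g (z ∘ Sum.inl)} =
      Cod.c (M := M) '' ({p : α × β | p.2 = f p.1} ∩ X ×ˢ univ) := by
    ext z
    constructor
    · rintro ⟨⟨a, ha, h1⟩, h2⟩
      rw [← h1, hg] at h2
      refine ⟨(a, f a), ⟨rfl, ha, mem_univ _⟩, ?_⟩
      funext i
      rcases i with i | i
      · exact congrFun h1 i
      · exact (congrFun h2 i).symm
    · rintro ⟨p, ⟨hp, ha, -⟩, rfl⟩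
      refine ⟨⟨p.1, ha, rfl⟩, ?_⟩
      have h1 : (Cod.c (M := M) p ∘ Sum.inl : Cod.ι M α → M) = Cod.c p.1 := rfl
      have h2 : (Cod.c (M := M) p ∘ Sum.inr : Cod.ι M β → M) = Cod.c p.2 := rfl
      rw [h1, h2, hg, show p.2 = f p.1 from hp]
  rw [e]
  exact h

theorem b_fib_def (U : RU M) [Ful U α] [Ful U β] {X : Set α} {f : α → β} (n : ℕ) (hX : U.D X)
    (hf : DFn U f) : U.D {b | b ∈ f '' X ∧ U.R {a | a ∈ X ∧ f a = b} = n} := by
  rcases X.eq_empty_or_nonempty with rfl | ⟨a0, ha0⟩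
  · have e : {b | b ∈ f '' (∅ : Set α) ∧ U.R {a | a ∈ (∅ : Set α) ∧ f a = b} = n} = ∅ := by
      ext b
      simp
    rw [e]
    exact D_empty
  have hne : Nonempty α := ⟨a0⟩
  obtain ⟨g, hg⟩ := code_fun (M := M) f
  have h := U.definable _ _ (Cod.c (M := M) '' X) (Cod.c (M := M) '' (f '' X)) g n hX
    (DFn_image hf hX) (by
      rintro _ ⟨a, ha, rfl⟩
      rw [hg]
      exact ⟨f a, ⟨a, ha, rfl⟩, rfl⟩) (graph_code hg hX hf)
  have e : Cod.c (M := M) '' {b | b ∈ f '' X ∧ U.R {a | a ∈ X ∧ f a = b} = n} =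
      {b | b ∈ Cod.c (M := M) '' (f '' X) ∧ {a | a ∈ Cod.c (M := M) '' X ∧ g a = b}.Nonempty ∧
        U.rk _ {a | a ∈ Cod.c (M := M) '' X ∧ g a = b} = n} := by
    ext y
    constructor
    · rintro ⟨b, ⟨hb, h1⟩, rfl⟩
      refine ⟨⟨b, hb, rfl⟩, ?_, ?_⟩
      · rw [fib_code hg]
        obtain ⟨a, ha, rfl⟩ := hb
        exact ⟨_, a, ⟨ha, rfl⟩, rfl⟩
      · rw [fib_code hg]
        exact h1
    · rintro ⟨⟨b, hb, rfl⟩, -, h1⟩
      rw [fib_code hg] at h1
      exact ⟨b, ⟨hb, h1⟩, rfl⟩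
  unfold RU.D
  rw [e]
  exact h

theorem b_fib_eq (U : RU M) [Ful U α] [Ful U β] {X : Set α} {f : α → β} {n : ℕ} (hX : U.D X)
    (hf : DFn U f) (hne : X.Nonempty) (h : ∀ b ∈ f '' X, U.R {a | a ∈ X ∧ f a = b} = n) :
    U.R X = U.R (f '' X) + n := by
  have hne' : Nonempty α := ⟨hne.some⟩
  obtain ⟨g, hg⟩ := code_fun (M := M) f
  refine U.additive _ _ (Cod.c (M := M) '' X) (Cod.c (M := M) '' (f '' X)) g n hX
    (DFn_image hf hX) (hne.image _) ?_ (graph_code hg hX hf) ?_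
  · rw [image_image, image_image]
    exact image_congr fun a _ => hg a
  · rintro _ ⟨b, hb, rfl⟩
    rw [fib_code hg]
    exact h b hb

theorem b_fibD (U : RU M) [Ful U α] [Ful U β] {X : Set α} {f : α → β} (hX : U.D X)
    (hf : DFn U f) (b : β) : U.D {a | a ∈ X ∧ f a = b} :=
  D_and hX (D_eqf hf (DFn_const b))

/-- the part of `X` where the rank of the fibre is `n` -/
theorem b_part (U : RU M) [Ful U α] [Ful U β] {X : Set α} {f : α → β} (n : ℕ) (hX : U.D X)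
    (hf : DFn U f) : U.D {a | a ∈ X ∧ U.R {a' | a' ∈ X ∧ f a' = f a} = n} := by
  have h := D_inter hX (DFn_preim hf (b_fib_def U n hX hf))
  have e : {a | a ∈ X ∧ U.R {a' | a' ∈ X ∧ f a' = f a} = n} =
      X ∩ {a | f a ∈ {b | b ∈ f '' X ∧ U.R {a | a ∈ X ∧ f a = b} = n}} := by
    ext a
    exact ⟨fun h => ⟨h.1, ⟨a, h.1, rfl⟩, h.2⟩, fun h => ⟨h.1, h.2.2⟩⟩
  rw [e]
  exact h

theorem b_fib_le (hA : RKA U) [Ful U α] [Ful U β] {f : α → β} (hf : DFn U f) (n : ℕ) :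
    ∀ X : Set α, U.D X → X.Nonempty → (∀ b ∈ f '' X, U.R {a | a ∈ X ∧ f a = b} ≤ n) →
      U.R X ≤ U.R (f '' X) + n := by
  induction n with
  | zero =>
    intro X hX hne h
    exact (b_fib_eq U hX hf hne fun b hb => Nat.le_zero.1 (h b hb)).le
  | succ n ih =>
    intro X hX hne h
    set P := {a | a ∈ X ∧ U.R {a' | a' ∈ X ∧ f a' = f a} = n + 1} with hP
    have hPD : U.D P := b_part U (n + 1) hX hf
    have hQD : U.D (X \ P) := D_diff hX hPD
    have hfP : ∀ b ∈ f '' P, U.R {a | a ∈ P ∧ f a = b} = n + 1 := by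
      rintro _ ⟨a, ha, rfl⟩
      have e : {a' | a' ∈ P ∧ f a' = f a} = {a' | a' ∈ X ∧ f a' = f a} := by
        ext a'
        refine ⟨fun h => ⟨h.1.1, h.2⟩, fun h => ⟨⟨h.1, ?_⟩, h.2⟩⟩
        rw [h.2]
        exact ha.2
      rw [e]
      exact ha.2
    have hfQ : ∀ b ∈ f '' (X \ P), U.R {a | a ∈ X \ P ∧ f a = b} ≤ n := by
      rintro _ ⟨a, ha, rfl⟩
      have e : {a' | a' ∈ X \ P ∧ f a' = f a} = {a' | a' ∈ X ∧ f a' = f a} := by
        ext a'
        refine ⟨fun h => ⟨h.1.1, h.2⟩, fun h => ⟨⟨h.1, fun h' => ha.2 ⟨ha.1, ?_⟩⟩, h.2⟩⟩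
        rw [← h.2]
        exact h'.2
      rw [e]
      have h1 := h (f a) ⟨a, ha.1, rfl⟩
      have h2 : U.R {a' | a' ∈ X ∧ f a' = f a} ≠ n + 1 := fun h' => ha.2 ⟨ha.1, h'⟩
      omega
    have himD : ∀ {Y : Set α}, U.D Y → U.D (f '' Y) := fun hY => DFn_image hf hY
    rcases P.eq_empty_or_nonempty with hPe | hPn
    · have hQX : X \ P = X := by rw [hPe, sdiff_empty]
      rw [hQX] at hfQ
      have := ih X hX hne hfQ
      omega
    · have h1 := b_fib_eq U hPD hf hPn hfP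
      have h2 : U.R (f '' P) ≤ U.R (f '' X) :=
        hA.mono (himD hPD) (himD hX) (hPn.image _) (image_mono fun a ha => ha.1)
      rcases (X \ P).eq_empty_or_nonempty with hQe | hQn
      · have hXP : X = P := by
          refine subset_antisymm ?_ fun a ha => ha.1
          intro a ha
          by_contra h'
          exact (Set.notMem_empty a) (hQe ▸ (⟨ha, h'⟩ : a ∈ X \ P))
        rw [← hXP] at h1
        omega
      · have h3 := ih _ hQD hQn hfQ
        have h4 : U.R (f '' (X \ P)) ≤ U.R (f '' X) :=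
          hA.mono (himD hQD) (himD hX) (hQn.image _) (image_mono fun a ha => ha.1)
        have h5 : U.R X = max (U.R P) (U.R (X \ P)) := by
          rw [← hA.union hPD hQD hPn hQn, union_sdiff_cancel fun a ha => ha.1]
        rw [h5]
        omega

theorem b_fib_ge_aux (hA : RKA U) [Ful U α] [Ful U β] {f : α → β} (hf : DFn U f) (d : ℕ) :
    ∀ (n : ℕ) (X : Set α), U.D X → X.Nonempty →
      (∀ b ∈ f '' X, n ≤ U.R {a | a ∈ X ∧ f a = b} ∧ U.R {a | a ∈ X ∧ f a = b} ≤ n + d) →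
      U.R (f '' X) + n ≤ U.R X := by
  induction d with
  | zero =>
    intro n X hX hne h
    exact (b_fib_eq U hX hf hne fun b hb => le_antisymm (h b hb).2 (h b hb).1).ge
  | succ d ih =>
    intro n X hX hne h
    set P := {a | a ∈ X ∧ U.R {a' | a' ∈ X ∧ f a' = f a} = n} with hP
    have hPD : U.D P := b_part U n hX hf
    have hQD : U.D (X \ P) := D_diff hX hPD
    have hfP : ∀ b ∈ f '' P, U.R {a | a ∈ P ∧ f a = b} = n := by
      rintro _ ⟨a, ha, rfl⟩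
      have e : {a' | a' ∈ P ∧ f a' = f a} = {a' | a' ∈ X ∧ f a' = f a} := by
        ext a'
        refine ⟨fun h => ⟨h.1.1, h.2⟩, fun h => ⟨⟨h.1, ?_⟩, h.2⟩⟩
        rw [h.2]
        exact ha.2
      rw [e]
      exact ha.2
    have hfQ : ∀ b ∈ f '' (X \ P), n + 1 ≤ U.R {a | a ∈ X \ P ∧ f a = b} ∧
        U.R {a | a ∈ X \ P ∧ f a = b} ≤ n + 1 + d := by
      rintro _ ⟨a, ha, rfl⟩
      have e : {a' | a' ∈ X \ P ∧ f a' = f a} = {a' | a' ∈ X ∧ f a' = f a} := by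
        ext a'
        refine ⟨fun h => ⟨h.1.1, h.2⟩, fun h => ⟨⟨h.1, fun h' => ha.2 ⟨ha.1, ?_⟩⟩, h.2⟩⟩
        rw [← h.2]
        exact h'.2
      rw [e]
      have h1 := h (f a) ⟨a, ha.1, rfl⟩
      have h2 : U.R {a' | a' ∈ X ∧ f a' = f a} ≠ n := fun h' => ha.2 ⟨ha.1, h'⟩
      omega
    have himD : ∀ {Y : Set α}, U.D Y → U.D (f '' Y) := fun hY => DFn_image hf hY
    rcases P.eq_empty_or_nonempty with hPe | hPn
    · have hQX : X \ P = X := by rw [hPe, sdiff_empty]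
      rw [hQX] at hfQ
      have := ih (n + 1) X hX hne hfQ
      omega
    · have h1 := b_fib_eq U hPD hf hPn hfP
      have h2 : U.R P ≤ U.R X := hA.mono hPD hX hPn fun a ha => ha.1
      rcases (X \ P).eq_empty_or_nonempty with hQe | hQn
      · have hXP : X = P := by
          refine subset_antisymm ?_ fun a ha => ha.1
          intro a ha
          by_contra h'
          exact (Set.notMem_empty a) (hQe ▸ (⟨ha, h'⟩ : a ∈ X \ P))
        rw [← hXP] at h1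
        omega
      · have h3 := ih (n + 1) _ hQD hQn hfQ
        have h4 : U.R (X \ P) ≤ U.R X := hA.mono hQD hX hQn fun a ha => ha.1
        have h5 : U.R (f '' X) = max (U.R (f '' P)) (U.R (f '' (X \ P))) := by
          rw [← hA.union (himD hPD) (himD hQD) (hPn.image _) (hQn.image _), ← image_union,
            union_sdiff_cancel fun a ha => ha.1]
        rw [h5]
        omega

theorem b_fib_ge (hA : RKA U) [Ful U α] [Ful U β] {f : α → β} (hf : DFn U f) {n : ℕ}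
    {X : Set α} (hX : U.D X) (hne : X.Nonempty)
    (h : ∀ b ∈ f '' X, n ≤ U.R {a | a ∈ X ∧ f a = b}) :
    U.R (f '' X) + n ≤ U.R X := by
  refine b_fib_ge_aux hA hf (U.R X) n X hX hne fun b hb => ⟨h b hb, ?_⟩
  have h1 : {a | a ∈ X ∧ f a = b}.Nonempty := by
    obtain ⟨a, ha, rfl⟩ := hb
    exact ⟨a, ha, rfl⟩
  have := hA.mono (b_fibD U hX hf b) hX h1 fun a ha => ha.1
  omega

theorem b_inj (hA : RKA U) [Ful U α] [Ful U β] {f : α → β} {X : Set α} (hX : U.D X)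
    (hf : DFn U f) (hne : X.Nonempty) (hi : InjOn f X) : U.R (f '' X) = U.R X := by
  refine (b_fib_eq U (n := 0) hX hf hne ?_).symm
  rintro _ ⟨a, ha, rfl⟩
  refine (hA.fin (b_fibD U hX hf _) ⟨a, ha, rfl⟩).2 ?_
  refine (Set.finite_singleton a).subset ?_
  rintro a' ⟨h1, h2⟩
  exact hi h1 ha h2

theorem b_sec_fib (hA : RKA U) [Ful U α] [Ful U β] {Z : Set (α × β)} (hZ : U.D Z) (a : α)
    (h : ∃ b, (a, b) ∈ Z) :
    U.R {p | p ∈ Z ∧ p.1 = a} = U.R {b | (a, b) ∈ Z} := by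
  have hD : U.D {b | (a, b) ∈ Z} := DFn_preim (DFn_pair (DFn_const a) DFn_id) hZ
  have h1 := b_inj hA (f := fun b : β => (a, b)) hD (DFn_pair (DFn_const a) DFn_id) h
    fun b _ b' _ hb => (Prod.ext_iff.1 hb).2
  rw [← h1]
  have e : {p | p ∈ Z ∧ p.1 = a} = (fun b : β => (a, b)) '' {b | (a, b) ∈ Z} := by
    ext p
    constructor
    · rintro ⟨hp, rfl⟩
      exact ⟨p.2, hp, rfl⟩
    · rintro ⟨b, hb, rfl⟩
      exact ⟨hb, rfl⟩
  rw [e]

theorem b_fst_image (Z : Set (α × β)) : Prod.fst '' Z = {a | ∃ b, (a, b) ∈ Z} := by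
  ext a
  constructor
  · rintro ⟨p, hp, rfl⟩
    exact ⟨p.2, hp⟩
  · rintro ⟨b, hb⟩
    exact ⟨_, hb, rfl⟩

theorem pf_RKB {M : Type} (U : RU M) (hA : RKA U) : RKB U where
  fib_def := fun n hX hf => b_fib_def U n hX hf
  fib_eq := fun hX hf hne h => b_fib_eq U hX hf hne h
  fib_le := fun hX hf hne h => b_fib_le hA hf _ _ hX hne h
  fib_ge := fun hX hf hne h => b_fib_ge hA hf hX hne h
  inj := fun hX hf hne h => b_inj hA hX hf hne h
  prod := by
    intro α β _ _ _ _ X Y hX hY hXn hYn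
    have h1 := b_fib_eq U (X := X ×ˢ Y) (f := Prod.fst) (n := U.R Y) (D_prod hX hY) DFn_fst
      (hXn.prod hYn) ?_
    · rwa [fst_image_prod _ hYn] at h1
    · rw [fst_image_prod _ hYn]
      intro x hx
      have h2 := b_sec_fib hA (D_prod hX hY) x ⟨hYn.some, hx, hYn.some_mem⟩
      rw [h2]
      congr 1
      ext y
      exact ⟨fun h => h.2, fun h => ⟨hx, h⟩⟩
  sec_def := by
    intro α β _ _ _ _ Z n hZ
    have h := b_fib_def U (f := Prod.fst) n hZ DFn_fst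
    have e : {a | (∃ b, (a, b) ∈ Z) ∧ U.R {b | (a, b) ∈ Z} = n} =
        {a | a ∈ Prod.fst '' Z ∧ U.R {p | p ∈ Z ∧ p.1 = a} = n} := by
      rw [b_fst_image]
      ext a
      constructor
      · rintro ⟨h1, h2⟩
        refine ⟨h1, ?_⟩
        rw [b_sec_fib hA hZ a h1]
        exact h2
      · rintro ⟨h1, h2⟩
        refine ⟨h1, ?_⟩
        rwa [b_sec_fib hA hZ a h1] at h2
    rw [e]
    exact h
  sec_eq := by
    intro α β _ _ _ _ Z n hZ hne h
    rw [← b_fst_image]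
    refine b_fib_eq U hZ DFn_fst hne ?_
    rw [b_fst_image]
    intro a ha
    rw [b_sec_fib hA hZ a ha]
    exact h a ha
  sec_le := by
    intro α β _ _ _ _ Z n hZ hne h
    rw [← b_fst_image]
    refine b_fib_le hA DFn_fst _ _ hZ hne ?_
    rw [b_fst_image]
    intro a ha
    rw [b_sec_fib hA hZ a ha]
    exact h a ha

end Pool.Agent.H77.BCP
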