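import Pool.Agent.H77.BC.Targets

/-!
# Rows TC1 and TC2 of board bcp_modules
-/

set_option autoImplicit false

open Set Matrix Pool.Agent.H77.BC

namespace Pool.Agent.H77.BCP

section Lin

variable {K : Type} [Field K] {n : ℕ}

theorem exists_dot_one {u : Fin n → K} (hu : u ≠ 0) : ∃ θ : Fin n → K, θ ⬝ᵥ u = 1 := by
  obtain ⟨i, hi⟩ := Function.ne_iff.1 hu
  refine ⟨Pi.single i (u i)⁻¹, ?_⟩
  rw [single_dotProduct]
  exact inv_mul_cancel₀ hi

/-- a vector orthogonal to `u` and not to `w` -/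
theorem exists_dot_sep {u w : Fin n → K} (hu : u ≠ 0) (hw : ∀ a : K, w ≠ a • u) :
    ∃ ζ : Fin n → K, ζ ⬝ᵥ u = 0 ∧ ζ ⬝ᵥ w = 1 := by
  obtain ⟨i, hi⟩ := Function.ne_iff.1 hu
  have hi' : u i ≠ 0 := hi
  obtain ⟨j, hj⟩ := Function.ne_iff.1 (hw (w i / u i))
  have hj' : w j - u j / u i * w i ≠ 0 := by
    intro h
    refine hj ?_
    rw [Pi.smul_apply, smul_eq_mul]
    rw [sub_eq_zero] at h
    rw [h]
    ring
  set ζ : Fin n → K := Pi.single j 1 - Pi.single i (u j / u i) with hζ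
  have h1 : ζ ⬝ᵥ u = 0 := by
    rw [hζ, sub_dotProduct, single_dotProduct, single_dotProduct]
    field_simp
    ring
  have h2 : ζ ⬝ᵥ w = w j - u j / u i * w i := by
    rw [hζ, sub_dotProduct, single_dotProduct, single_dotProduct, one_mul]
  refine ⟨(w j - u j / u i * w i)⁻¹ • ζ, ?_, ?_⟩
  · rw [smul_dotProduct, h1, smul_zero]
  · rw [smul_dotProduct, h2, smul_eq_mul, inv_mul_cancel₀ hj']

theorem vecMul_tv (φ w η : Fin n → K) : φ ᵥ* (1 + vecMulVec w η) = φ + (φ ⬝ᵥ w) • η := by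
  rw [vecMul_add, vecMul_one, vecMul_vecMulVec]

theorem tv_mulVec (u w η : Fin n → K) : (1 + vecMulVec w η) *ᵥ u = u + (η ⬝ᵥ u) • w := by
  rw [add_mulVec, one_mulVec, vecMulVec_mulVec, op_smul_eq_smul]

/-- parallel vectors in the plane -/
theorem par2 {v w : Fin 2 → K} (hv : v ≠ 0) :
    (∃ a : K, w = a • v) ↔ w 0 * v 1 = w 1 * v 0 := by
  constructor
  · rintro ⟨a, rfl⟩
    simp only [Pi.smul_apply, smul_eq_mul]
    ring
  · intro h
    by_cases h0 : v 0 = 0
    · have h1 : v 1 ≠ 0 := by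
        intro h1
        refine hv (funext fun i => ?_)
        fin_cases i
        · exact h0
        · exact h1
      rw [h0, mul_zero] at h
      have hw0 : w 0 = 0 := (mul_eq_zero.1 h).resolve_right h1
      refine ⟨w 1 / v 1, funext fun i => ?_⟩
      fin_cases i
      · simp [h0, hw0]
      · simp [h1]
    · refine ⟨w 0 / v 0, funext fun i => ?_⟩
      fin_cases i
      · simp [h0]
      · simp only [Fin.mk_one, Pi.smul_apply, smul_eq_mul]
        field_simp
        exact h.symm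

theorem ph_eq_pv {χ : Fin 2 → K} (hχ : χ ≠ 0) : ∃ u : Fin 2 → K, u ≠ 0 ∧ Ph χ = Pv u := by
  have hu : (![-χ 1, χ 0] : Fin 2 → K) ≠ 0 := by
    intro h
    refine hχ (funext fun i => ?_)
    have h0 := congrFun h 0
    have h1 := congrFun h 1
    simp only [cons_val_zero, Pi.zero_apply, neg_eq_zero] at h0
    simp only [cons_val_one, Pi.zero_apply] at h1
    fin_cases i
    · exact h1
    · exact h0
  refine ⟨![-χ 1, χ 0], hu, ?_⟩
  ext g
  rw [mem_Ph, mem_Pv, par2 hχ, par2 hu]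
  simp only [vecMul, mulVec, dotProduct, Fin.sum_univ_two, cons_val_zero, cons_val_one]
  constructor
  · intro h
    linear_combination -h
  · intro h
    linear_combination -h

end Lin

theorem pf_TC1 {M : Type} (U : RU M) (_hA : RKA U) (hB : RKB U) (hV : RNV U) (hC : ADC U)
    (hG : CMG) : TC1 U := by
  intro K _ _ _ _ hf k hk A hAD hAr u hu hst
  have hrV : U.R (univ : Set (Fin (k + 1) → K)) = k + 1 := by
    have h := (hV (K := K) (k + 1) 0).1
    rw [hf, mul_one] at h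
    exact h
  obtain ⟨θ, hθ⟩ := exists_dot_one hu
  have first : ∀ φ : Fin (k + 1) → K, φ ⬝ᵥ u = 0 → φ ∈ A := by
    by_cases hcase : ∃ φ ∈ A, φ ⬝ᵥ u ≠ 0
    · obtain ⟨φ, hφ, hφu⟩ := hcase
      intro η hη
      obtain ⟨s, s', a, b, hs, hs', hc⟩ := hG u ((φ ⬝ᵥ u)⁻¹ • η) θ (by
        rw [smul_dotProduct, hη, smul_zero]) hθ
      have h1 : s ∈ Pv u := by
        refine ⟨1 + a, ?_⟩
        rw [hs, tv_mulVec, smul_dotProduct, hθ, add_smul, one_smul, smul_eq_mul, mul_one]
      have h2 : s' ∈ Pv u := by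
        refine ⟨1, ?_⟩
        rw [hs', tv_mulVec, smul_dotProduct, smul_dotProduct, hη, smul_zero, smul_zero, zero_smul,
          add_zero, one_smul]
      have h3 := hst s h1 s' h2 φ hφ
      rw [hc, vecMul_tv, smul_smul, mul_inv_cancel₀ hφu, one_smul] at h3
      have h4 := A.sub_mem h3 hφ
      rwa [add_sub_cancel_left] at h4
    · push Not at hcase
      -- A + K θ is everything
      let m : (Fin (k + 1) → K) × K → (Fin (k + 1) → K) := fun p => p.1 + p.2 • θ
      have hm : DFn U m := DFn_vadd DFn_fst (DFn_smul DFn_snd (DFn_const θ))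
      let A' : AddSubgroup (Fin (k + 1) → K) :=
        { carrier := m '' ((A : Set (Fin (k + 1) → K)) ×ˢ univ)
          zero_mem' := ⟨(0, 0), ⟨A.zero_mem, mem_univ _⟩, by simp [m]⟩
          add_mem' := by
            rintro _ _ ⟨⟨a, s⟩, ⟨ha, -⟩, rfl⟩ ⟨⟨b, t⟩, ⟨hb, -⟩, rfl⟩
            refine ⟨(a + b, s + t), ⟨A.add_mem ha hb, mem_univ _⟩, ?_⟩
            change a + b + (s + t) • θ = a + s • θ + (b + t • θ)
            rw [add_smul]
            abel
          neg_mem' := by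
            rintro _ ⟨⟨a, s⟩, ⟨ha, -⟩, rfl⟩
            refine ⟨(-a, -s), ⟨A.neg_mem ha, mem_univ _⟩, ?_⟩
            change -a + (-s) • θ = -(a + s • θ)
            rw [neg_smul]
            abel }
      have hXD : U.D ((A : Set (Fin (k + 1) → K)) ×ˢ (univ : Set K)) := D_prod hAD Ful.full
      have hXne : ((A : Set (Fin (k + 1) → K)) ×ˢ (univ : Set K)).Nonempty :=
        ⟨(0, 0), A.zero_mem, mem_univ _⟩
      have hr : U.R (A' : Set (Fin (k + 1) → K)) = k + 1 := by
        have h1 := hB.inj hXD hm hXne (by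
          rintro ⟨a, s⟩ ⟨ha, -⟩ ⟨b, t⟩ ⟨hb, -⟩ h
          have h' : a + s • θ = b + t • θ := h
          have h2 := congrArg (fun x => x ⬝ᵥ u) h'
          simp only [add_dotProduct, smul_dotProduct, hθ, hcase a ha, hcase b hb, zero_add,
            smul_eq_mul, mul_one] at h2
          subst h2
          rw [add_right_cancel h'])
        have h2 := hB.prod hAD (Ful.full (U := U) (α := K)) ⟨0, A.zero_mem⟩ ⟨0, mem_univ _⟩
        rw [hAr, hf] at h2
        exact h1.trans h2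
      have htop := hC K A' (DFn_image hm hXD) (by rw [hr, hrV])
      intro φ hφ
      have h1 : φ ∈ A' := by
        rw [htop]
        trivial
      obtain ⟨⟨a, t⟩, ⟨ha, -⟩, h2⟩ := h1
      have h2' : a + t • θ = φ := h2
      have h3 := congrArg (fun x => x ⬝ᵥ u) h2'
      simp only [add_dotProduct, smul_dotProduct, hθ, hcase a ha, zero_add, smul_eq_mul, mul_one,
        hφ] at h3
      rw [h3, zero_smul, add_zero] at h2'
      rw [← h2']
      exact ha
  refine ⟨first, fun φ hφ => ?_⟩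
  by_contra hne
  have htop : A = ⊤ := by
    refine (AddSubgroup.eq_top_iff' A).2 fun x => ?_
    have h1 := hφ ((x ⬝ᵥ u) / (φ ⬝ᵥ u))
    have h2 := first (x - ((x ⬝ᵥ u) / (φ ⬝ᵥ u)) • φ) (by
      rw [sub_dotProduct, smul_dotProduct, smul_eq_mul, div_mul_cancel₀ _ hne, sub_self])
    have h3 := A.add_mem h2 h1
    rwa [sub_add_cancel] at h3
  rw [htop] at hAr
  have h4 : U.R (((⊤ : AddSubgroup (Fin (k + 1) → K))) : Set (Fin (k + 1) → K)) = k + 1 := hrV
  omega

theorem pf_TC2 {M : Type} (U : RU M) (hA : RKA U) (hB : RKB U) (hV : RNV U) (hG : CMG) :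
    TC2 U := by
  intro K _ _ _ _ hf k hk A hAD hAr χ hχ hst
  rcases hk.lt_or_eq with hk2 | hk1
  · exfalso
    have hrV : U.R (univ : Set (Fin (k + 1) → K)) = k + 1 := by
      have h := (hV (K := K) (k + 1) 0).1
      rw [hf, mul_one] at h
      exact h
    -- a vector in A that is not a multiple of χ
    have hex : ∃ φ ∈ A, ∀ a : K, φ ≠ a • χ := by
      by_contra hcon
      push Not at hcon
      have hm : DFn U (fun t : K => t • χ) := DFn_smul DFn_id (DFn_const χ)
      have h1 := hB.inj (X := (univ : Set K)) Ful.full hm ⟨0, mem_univ _⟩ (fun a _ b _ h =>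
        smul_left_injective K hχ h)
      have h2 : U.R (A : Set (Fin (k + 1) → K)) ≤ U.R ((fun t : K => t • χ) '' univ) := by
        refine hA.mono hAD (DFn_image hm Ful.full) ⟨0, A.zero_mem⟩ fun x hx => ?_
        obtain ⟨a, ha⟩ := hcon x hx
        exact ⟨a, mem_univ _, ha.symm⟩
      rw [h1, hf, hAr] at h2
      omega
    obtain ⟨φ, hφA, hφ⟩ := hex
    have hkey : ∀ w : Fin (k + 1) → K, χ ⬝ᵥ w = 0 → φ ⬝ᵥ w = 1 → ∀ η : Fin (k + 1) → K,
        η ⬝ᵥ w = 0 → η ∈ A := by
      intro w hw1 hw2 η hη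
      obtain ⟨s, s', a, b, hs, hs', hc⟩ := hG w η φ hη hw2
      have h1 : s ∈ Ph χ := by
        refine ⟨1, ?_⟩
        rw [hs, vecMul_tv, hw1, zero_smul, add_zero, one_smul]
      have h2 : s' ∈ Ph χ := by
        refine ⟨1, ?_⟩
        rw [hs', vecMul_tv, hw1, zero_smul, add_zero, one_smul]
      have h3 := hst s h1 s' h2 φ hφA
      rw [hc, vecMul_tv, hw2, one_smul] at h3
      have h4 := A.sub_mem h3 hφA
      rwa [add_sub_cancel_left] at h4
    obtain ⟨w1, hw1, hw1'⟩ := exists_dot_sep hχ hφ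
    rw [dotProduct_comm] at hw1 hw1'
    -- a vector orthogonal to χ and φ
    obtain ⟨x, hx0, hx1, hx2⟩ : ∃ x : Fin (k + 1) → K, x ≠ 0 ∧ χ ⬝ᵥ x = 0 ∧ φ ⬝ᵥ x = 0 := by
      have h1 := LinearMap.ker_ne_bot_of_finrank_lt
        (f := Matrix.mulVecLin (Matrix.of ![χ, φ] : Matrix (Fin 2) (Fin (k + 1)) K)) (by
          rw [Module.finrank_fin_fun, Module.finrank_fin_fun]
          omega)
      obtain ⟨x, hx, hx0⟩ := (Submodule.ne_bot_iff _).1 h1
      rw [LinearMap.mem_ker, Matrix.mulVecLin_apply] at hx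
      exact ⟨x, hx0, congrFun hx 0, congrFun hx 1⟩
    have hw2 : χ ⬝ᵥ (w1 + x) = 0 := by rw [dotProduct_add, hw1, hx1, add_zero]
    have hw2' : φ ⬝ᵥ (w1 + x) = 1 := by rw [dotProduct_add, hw1', hx2, add_zero]
    have hw10 : w1 ≠ 0 := by
      rintro rfl
      rw [dotProduct_zero] at hw1'
      exact zero_ne_one hw1'
    obtain ⟨ζ, hζ1, hζ2⟩ := exists_dot_sep (u := w1) (w := w1 + x) hw10 (by
      intro a ha
      have h1 := congrArg (fun y => φ ⬝ᵥ y) ha
      simp only [hw2', dotProduct_smul, hw1', smul_eq_mul, mul_one] at h1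
      rw [← h1, one_smul] at ha
      exact hx0 (by simpa using ha))
    have htop : A = ⊤ := by
      refine (AddSubgroup.eq_top_iff' A).2 fun ψ => ?_
      have h1 := hkey w1 hw1 hw1' ((ψ ⬝ᵥ (w1 + x)) • ζ) (by rw [smul_dotProduct, hζ1, smul_zero])
      have h2 := hkey (w1 + x) hw2 hw2' (ψ - (ψ ⬝ᵥ (w1 + x)) • ζ) (by
        rw [sub_dotProduct, smul_dotProduct, hζ2, smul_eq_mul, mul_one, sub_self])
      have h3 := A.add_mem h2 h1
      rwa [sub_add_cancel] at h3
    rw [htop] at hAr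
    have h4 : U.R (((⊤ : AddSubgroup (Fin (k + 1) → K))) : Set (Fin (k + 1) → K)) = k + 1 := hrV
    omega
  · subst hk1
    exact ph_eq_pv hχ

end Pool.Agent.H77.BCP
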