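import Pool.Agent.H12.BCP.GAL
import Pool.Agent.H12.BCP.TYA
import Pool.Agent.H13.BCP.E2A
import Pool.Agent.H34.BCP.ADC
import Pool.Agent.H34.BCP.FSL
import Pool.Agent.H34.BCP.SRF
import Pool.Agent.H36.BCP.HZR
import Pool.Agent.H37.BCP.EBB
import Pool.Agent.H37.BCP.TRX
import Pool.Agent.H4.BCP.E2C
import Pool.Agent.H4.BCP.HZA
import Pool.Agent.H41.BCP.FIA
import Pool.Agent.H49.BCP.CGL
import Pool.Agent.H49.BCP.GRB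
import Pool.Agent.H49.BCP.TYC
import Pool.Agent.H5.BCP.ADB
import Pool.Agent.H5.BCP.CNA
import Pool.Agent.H5.BCP.CNJ
import Pool.Agent.H5.BCP.COM
import Pool.Agent.H5.BCP.DGV
import Pool.Agent.H5.BCP.FDE
import Pool.Agent.H5.BCP.GRC
import Pool.Agent.H5.BCP.LIN
import Pool.Agent.H5.BCP.MK
import Pool.Agent.H5.BCP.OPN
import Pool.Agent.H5.BCP.PVH
import Pool.Agent.H6.BCP.CMS
import Pool.Agent.H6.BCP.EAA
import Pool.Agent.H6.BCP.SLG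
import Pool.Agent.H6.BCP.TRA
import Pool.Agent.H6.BCP.TRB
import Pool.Agent.H6.BCP.TRC
import Pool.Agent.H60.BCP.FCN
import Pool.Agent.H60.BCP.GRA
import Pool.Agent.H60.BCP.RNV
import Pool.Agent.H60.BCP.TYV
import Pool.Agent.H62.BCP.CJL
import Pool.Agent.H62.BCP.CJT
import Pool.Agent.H62.BCP.SLA
import Pool.Agent.H68.BCP.GRD
import Pool.Agent.H69.BCP.MSA
import Pool.Agent.H69.BCP.RGL
import Pool.Agent.H74.BCP.BGN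
import Pool.Agent.H74.BCP.E2B
import Pool.Agent.H77.BCP.DEG
import Pool.Agent.H77.BCP.FNL
import Pool.Agent.H77.BCP.REC
import Pool.Agent.H77.BCP.RKA
import Pool.Agent.H77.BCP.RKB
import Pool.Agent.H77.BCP.TC
import Pool.Agent.H78.BCP.CMG
import Pool.Agent.H78.BCP.EBA
import Pool.Agent.H78.BCP.ECR
import Pool.Agent.H78.BCP.EK
import Pool.Agent.H79.BCP.M2A
import Pool.Agent.H79.BCP.RNG
import Pool.Agent.H94.BCP.FSP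

/-!
# Board bcp_modules: all rows together
-/

set_option autoImplicit false

open Pool.Agent.H77.BC

namespace Pool.Agent.H77.BCP

section

variable {M : Type} (U : RU M)

theorem a_RKA : RKA U := Pool.Agent.H77.BCP.pf_RKA U
theorem a_RKB : RKB U := Pool.Agent.H77.BCP.pf_RKB U (a_RKA U)
theorem a_GRA : GRA U := Pool.Agent.H60.BCP.pf_GRA U (a_RKA U) (a_RKB U)
theorem a_GRD : GRD U := Pool.Agent.H68.BCP.pf_GRD U (a_RKA U) (a_RKB U) (a_GRA U)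
theorem a_GRC : GRC U := Pool.Agent.H5.BCP.pf_GRC U (a_RKA U) (a_RKB U)
theorem a_GRB : GRB U := Pool.Agent.H49.BCP.pf_GRB U (a_RKA U) (a_RKB U)
theorem a_CNA : CNA U := Pool.Agent.H5.BCP.pf_CNA U (a_RKA U) (a_RKB U)
theorem a_CNJ : CNJ U := Pool.Agent.H5.BCP.pf_CNJ U (a_CNA U)
theorem a_DEG : DEG U := Pool.Agent.H77.BCP.pf_DEG U (a_RKA U) (a_RKB U) (a_GRA U)
theorem a_FCN : FCN U := Pool.Agent.H60.BCP.pf_FCN U (a_RKA U) (a_RKB U) (a_GRA U) (a_GRD U)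
theorem a_FDG : FDG U := Pool.Agent.H5.BCP.pf_FDG U (a_FCN U) (a_DEG U)
theorem a_FSP : FSP U := Pool.Agent.H94.BCP.pf_FSP U (a_RKA U) (a_RKB U) (a_FCN U) (a_FDG U)
theorem a_FSL : FSL U := Pool.Agent.H34.BCP.pf_FSL U (a_FSP U)
theorem a_SRF : SRF U := Pool.Agent.H34.BCP.pf_SRF U (a_RKA U) (a_RKB U) (a_GRA U) (a_GRD U)
theorem a_FDE : FDE U := Pool.Agent.H5.BCP.pf_FDE U (a_RKA U) (a_RKB U)
theorem a_EDF : EDF U := Pool.Agent.H5.BCP.pf_EDF U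
theorem a_RNG : RNG U := Pool.Agent.H79.BCP.pf_RNG U (a_SRF U) (a_FDE U) (a_EDF U) (a_FSL U) Pool.Agent.H12.BCP.pf_GAL
theorem a_MUL : MUL U := Pool.Agent.H5.BCP.pf_MUL U (a_RNG U)
theorem a_ADC : ADC U := Pool.Agent.H34.BCP.pf_ADC U (a_RKA U) (a_RKB U) (a_GRA U) (a_FCN U)
theorem a_ADB : ADB U := Pool.Agent.H5.BCP.pf_ADB U (a_GRB U)
theorem a_DGV : DGV U := Pool.Agent.H5.BCP.pf_DGV U (a_ADC U) (a_DEG U)
theorem a_OPN : OPN U := Pool.Agent.H5.BCP.pf_OPN U (a_RKA U) (a_RKB U) (a_DGV U)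
theorem a_RNV : RNV U := Pool.Agent.H60.BCP.pf_RNV U (a_RKA U) (a_RKB U)
theorem a_RKS : RKS U := Pool.Agent.H5.BCP.pf_RKS U (a_RKA U) (a_RKB U) (a_RNV U)
theorem a_RGL : RGL U := Pool.Agent.H69.BCP.pf_RGL U (a_RKA U) (a_RKB U) (a_RNV U) (a_RKS U)
theorem a_RPE : RPE U := Pool.Agent.H5.BCP.pf_RPE U (a_RKA U) (a_RKB U) (a_RNV U) (a_RKS U) (a_RGL U)
theorem a_CGL : CGL U := Pool.Agent.H49.BCP.pf_CGL U (a_RNV U) (a_RKB U) (a_RGL U) (a_RPE U) (a_OPN U)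
theorem a_PVH : PVH U := Pool.Agent.H5.BCP.pf_PVH U (a_CNA U) (a_CNJ U) (a_RPE U) (a_CGL U) Pool.Agent.H60.BCP.pf_TYV
theorem a_SLG : SLG := Pool.Agent.H6.BCP.pf_SLG Pool.Agent.H74.BCP.pf_BGN
theorem a_CJL : CJL := Pool.Agent.H62.BCP.pf_CJL Pool.Agent.H62.BCP.pf_CJT
theorem a_REC : REC U := Pool.Agent.H77.BCP.pf_REC U (a_RKA U) (a_RKB U) (a_GRB U) (a_RNV U) (a_RKS U) (a_RGL U)
  (a_RPE U)
theorem a_M2A : M2A U := Pool.Agent.H79.BCP.pf_M2A U (a_RKA U) (a_RKB U) (a_GRB U) (a_RNV U) (a_RKS U) (a_RGL U)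
  (a_RPE U) (a_MUL U)
theorem a_MSA : MSA U := Pool.Agent.H69.BCP.pf_MSA U (a_RKA U) (a_RNV U) (a_RKS U) (a_RGL U) (a_REC U)
  Pool.Agent.H5.BCP.pf_COM Pool.Agent.H6.BCP.pf_CMS Pool.Agent.H62.BCP.pf_SLA
theorem a_LIN : LIN U := Pool.Agent.H5.BCP.pf_LIN U (a_RKA U) (a_RKB U) (a_ADB U) (a_RNV U)
theorem a_LAM : LAM U := Pool.Agent.H5.BCP.pf_LAM U (a_MUL U) a_SLG
theorem a_MK : MK U := Pool.Agent.H5.BCP.pf_MK U (a_CNJ U) (a_M2A U) (a_MSA U) (a_LIN U) (a_LAM U) (a_REC U)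
  a_SLG a_CJL
theorem a_ECR : ECR U := Pool.Agent.H78.BCP.pf_ECR U (a_PVH U)
theorem a_E2B : E2B U := Pool.Agent.H74.BCP.pf_E2B U (a_RKA U) (a_RKB U) (a_GRB U) (a_RNV U) (a_RKS U) (a_RGL U)
  (a_RPE U) (a_ADC U) (a_DGV U) (a_REC U)
theorem a_E2C : E2C U := Pool.Agent.H4.BCP.pf_E2C U (a_CNJ U) (a_ECR U) Pool.Agent.H13.BCP.pf_E2A (a_E2B U)
  Pool.Agent.H60.BCP.pf_TYV a_SLG a_CJL Pool.Agent.H62.BCP.pf_CJT
theorem a_TYA : TYA U := Pool.Agent.H12.BCP.pf_TYA U (a_RKA U) (a_RKB U) (a_GRB U) (a_GRC U) (a_RNV U) (a_RKS U)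
  (a_RGL U) (a_RPE U) (a_REC U) (a_CGL U) (a_FDG U) Pool.Agent.H5.BCP.pf_COM
  Pool.Agent.H6.BCP.pf_CMS Pool.Agent.H62.BCP.pf_SLA
theorem a_TYB : TYB U := Pool.Agent.H5.BCP.pf_TYB U (a_RNV U) (a_ADC U) (a_REC U) Pool.Agent.H62.BCP.pf_CJT
theorem a_TC1 : TC1 U := Pool.Agent.H77.BCP.pf_TC1 U (a_RKA U) (a_RKB U) (a_RNV U) (a_ADC U) Pool.Agent.H78.BCP.pf_CMG
theorem a_TC2 : TC2 U := Pool.Agent.H77.BCP.pf_TC2 U (a_RKA U) (a_RKB U) (a_RNV U) Pool.Agent.H78.BCP.pf_CMG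
theorem a_TYC : TYC U := Pool.Agent.H49.BCP.pf_TYC U (a_RKA U) (a_RNV U) (a_REC U) Pool.Agent.H5.BCP.pf_COM
  Pool.Agent.H6.BCP.pf_CMS Pool.Agent.H62.BCP.pf_SLA (a_TC1 U) (a_TC2 U) Pool.Agent.H62.BCP.pf_CJT
theorem a_EBB : EBB := Pool.Agent.H37.BCP.pf_EBB Pool.Agent.H78.BCP.pf_EBA a_SLG Pool.Agent.H60.BCP.pf_TYV
theorem a_EK : EK U := Pool.Agent.H78.BCP.pf_EK U (a_CNJ U) (a_MK U) (a_E2C U) (a_ECR U) (a_TYA U) (a_TYB U)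
  (a_TYC U) Pool.Agent.H60.BCP.pf_TYV Pool.Agent.H6.BCP.pf_EAA a_EBB (a_REC U) (a_RNV U) (a_RKA U)
theorem a_HZR : HZR U := Pool.Agent.H36.BCP.pf_HZR U (a_RKA U) (a_RKB U) (a_RKS U)

end

theorem a_TRX : TRX := Pool.Agent.H37.BCP.pf_TRX Pool.Agent.H6.BCP.pf_TRA Pool.Agent.H6.BCP.pf_TRB
  Pool.Agent.H6.BCP.pf_TRC Pool.Agent.H74.BCP.pf_BGN
theorem a_RST : RST := Pool.Agent.H5.BCP.pf_RST a_RKA a_GRC
theorem a_HZA : HZA := Pool.Agent.H4.BCP.pf_HZA a_SLG Pool.Agent.H6.BCP.pf_CMS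
theorem a_FIB : FIB := Pool.Agent.H5.BCP.pf_FIB Pool.Agent.H41.BCP.pf_FIA
theorem a_GTR : GTR := Pool.Agent.H5.BCP.pf_GTR a_RKA a_RKB

theorem fnl : FNL := pf_FNL a_MK a_EK a_RGL a_RKS a_TRX a_RST a_HZA a_HZR Pool.Agent.H41.BCP.pf_FIA
  a_FIB a_GTR

end Pool.Agent.H77.BCP
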